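import Pool.Agent.H29.BT.FinT

set_option autoImplicit false

namespace Pool.Agent.Results.MP_2d2db3_co.DenseGraphs

open H29.BP

/-- Let `G` be a finite simple graph with `m ≥ 1` edges. Its biplanar crossing number is at most
`(3/8 - (CR G / m²)⁴ / 2³⁹) CR G`. -/
theorem result (V : Type) [Finite V] (G : SimpleGraph V) (m : ℕ) (hm : G.edgeSet.ncard = m)
    (hm1 : 1 ≤ m) :
    (CR2 G : ℝ) ≤ (3 / 8 - ((CR G : ℝ) / (m : ℝ) ^ 2) ^ 4 / 2 ^ 39) * CR G := by
  have h1 : (ES G).card = m := by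
    rw [← hm, Set.ncard_eq_toFinset_card _ (Set.toFinite G.edgeSet)]
    rfl
  have h2 := H29.BT.dense G (h1.symm ▸ hm1)
  rwa [h1] at h2

end Pool.Agent.Results.MP_2d2db3_co.DenseGraphs
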